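import Pool.Agent.Q110.Quat

/-!
# Invariant nonnegative subspaces of plus-matrices need not extend when `H` is singular

Negative answer to Q1 of MP_7dcdb2_al: `H = diag(1, -1, 0)`, `A = (e₁ - e₂) e₃ᵀ` and
`M₀ = span (e₁ + e₂)`.
-/

set_option autoImplicit false

open scoped Quaternion
open Matrix

namespace Pool.Agent.Results.MP_7dcdb2_al.PlusMatrix

/-- quaternion matrices -/
abbrev Mat (n : ℕ) : Type := Matrix (Fin n) (Fin n) ℍ[ℝ]

/-- right `ℍ`-subspaces of `ℍ^n` -/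
abbrev RSub (n : ℕ) : Type := Submodule (ℍ[ℝ])ᵐᵒᵖ (Fin n → ℍ[ℝ])

/-- dimension over `ℍ` -/
noncomputable abbrev qdim {n : ℕ} (M : RSub n) : ℕ := Module.finrank (ℍ[ℝ])ᵐᵒᵖ M

/-- `[x,y] = y^* H x` -/
noncomputable def form {n : ℕ} (H : Mat n) (x y : Fin n → ℍ[ℝ]) : ℍ[ℝ] := star y ⬝ᵥ H *ᵥ x

/-- the real number `[x,x]` (for hermitian `H`) is nonnegative -/
def Nonneg {n : ℕ} (H : Mat n) (x : Fin n → ℍ[ℝ]) : Prop := ∃ r : ℝ, 0 ≤ r ∧ form H x x = r

/-- `M` is `H`-nonnegative -/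
def IsNonneg {n : ℕ} (H : Mat n) (M : RSub n) : Prop := ∀ x ∈ M, Nonneg H x

/-- `H` has inertia `(p, q, ν)`: `S^* H S = I_p ⊕ (-I_q) ⊕ 0_ν` for some invertible `S` -/
def HasInertia {n : ℕ} (H : Mat n) (p q ν : ℕ) : Prop :=
  p + q + ν = n ∧ ∃ S T : Mat n, S * T = 1 ∧ T * S = 1 ∧
    Sᴴ * H * S = Matrix.diagonal fun i : Fin n =>
      if (i : ℕ) < p then 1 else if (i : ℕ) < p + q then -1 else 0

/-- `A` is an `H`-plus-matrix -/
def IsPlus {n : ℕ} (H A : Mat n) : Prop := ∀ x, Nonneg H x → Nonneg H (A *ᵥ x)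

/-- `M` is `A`-invariant -/
def Invariant {n : ℕ} (A : Mat n) (M : RSub n) : Prop := ∀ x ∈ M, A *ᵥ x ∈ M

/-- The matrix `H = diag(1, -1, 0)`. -/
noncomputable def H0 : Mat 3 := Matrix.diagonal ![1, -1, 0]

/-- The matrix `A = (e₁ - e₂) e₃ᵀ`. -/
noncomputable def A0 : Mat 3 := !![0, 0, 1; 0, 0, -1; 0, 0, 0]

theorem form_H0 (x y : Fin 3 → ℍ[ℝ]) : form H0 x y = star (y 0) * x 0 - star (y 1) * x 1 := by
  simp [form, H0, Matrix.mulVec_diagonal, dotProduct, Fin.sum_univ_three, sub_eq_add_neg]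

theorem A0_mul (x : Fin 3 → ℍ[ℝ]) : A0 *ᵥ x = ![x 2, -x 2, 0] := by
  funext i
  fin_cases i <;> simp [A0, Matrix.mulVec, dotProduct, Fin.sum_univ_three]

/-- **Q1 is false.**  There are a singular hermitian quaternion matrix `H` (of inertia
`(1, 1, 1)`), an `H`-plus-matrix `A` and an `A`-invariant `H`-nonnegative subspace `M₀` that lies in
no `A`-invariant `H`-nonnegative subspace of dimension `In_+(H) + In_0(H)`. -/
theorem result : ∃ (n p q ν : ℕ) (H A : Mat n) (M₀ : RSub n),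
    H.IsHermitian ∧ HasInertia H p q ν ∧ ν ≠ 0 ∧ IsPlus H A ∧
    Invariant A M₀ ∧ IsNonneg H M₀ ∧
    ∀ M : RSub n, Invariant A M → IsNonneg H M → M₀ ≤ M → qdim M ≠ p + ν := by
  refine ⟨3, 1, 1, 1, H0, A0, Submodule.span _ {![1, 1, 0]}, ?_, ?_, one_ne_zero, ?_, ?_, ?_, ?_⟩
  · rw [H0, Matrix.IsHermitian, Matrix.diagonal_conjTranspose]
    congr 1
    funext i
    fin_cases i <;> simp
  · refine ⟨rfl, 1, 1, by simp, by simp, ?_⟩
    rw [Matrix.conjTranspose_one, Matrix.one_mul, Matrix.mul_one, H0]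
    congr 1
    funext i
    fin_cases i <;> simp
  · intro x _
    refine ⟨0, le_rfl, ?_⟩
    rw [A0_mul, form_H0]
    simp
  · intro x hx
    rw [Submodule.mem_span_singleton] at hx
    obtain ⟨c, rfl⟩ := hx
    rw [A0_mul]
    have : (![(c • ![(1 : ℍ[ℝ]), 1, 0]) 2, -(c • ![(1 : ℍ[ℝ]), 1, 0]) 2, 0] : Fin 3 → ℍ[ℝ]) = 0 := by
      funext i
      fin_cases i <;> simp
    rw [this]
    exact Submodule.zero_mem _
  · intro x hx
    rw [Submodule.mem_span_singleton] at hx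
    obtain ⟨c, rfl⟩ := hx
    refine ⟨0, le_rfl, ?_⟩
    rw [form_H0]
    simp
  · intro M hA hM h0 hdim
    have hv : (![1, 1, 0] : Fin 3 → ℍ[ℝ]) ∈ M := h0 (Submodule.mem_span_singleton_self _)
    -- `e₃ ∈ M`
    have h3 : (![0, 0, 1] : Fin 3 → ℍ[ℝ]) ∈ M := by
      by_contra hne
      have hlt : M < M ⊔ Submodule.span _ {![0, 0, 1]} := by
        refine lt_of_le_of_ne le_sup_left fun h => hne ?_
        rw [h]
        exact Submodule.mem_sup_right (Submodule.mem_span_singleton_self _)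
      have h4 : M ⊔ Submodule.span _ {![0, 0, 1]} = ⊤ := by
        apply Submodule.eq_top_of_finrank_eq
        have h5 := Submodule.finrank_lt_finrank_of_lt hlt
        have h6 := Submodule.finrank_le (M ⊔ Submodule.span (ℍ[ℝ])ᵐᵒᵖ {![(0 : ℍ[ℝ]), 0, 1]})
        rw [Pool.Agent.Q110.Quat.finrank_quat] at h6 ⊢
        have h7 : Module.finrank (ℍ[ℝ])ᵐᵒᵖ M = 2 := hdim
        omega
      have h5 : (![0, 1, 0] : Fin 3 → ℍ[ℝ]) ∈ M ⊔ Submodule.span _ {![0, 0, 1]} := by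
        rw [h4]
        exact Submodule.mem_top
      obtain ⟨m, hm, w, hw, hmw⟩ := Submodule.mem_sup.1 h5
      rw [Submodule.mem_span_singleton] at hw
      obtain ⟨c, rfl⟩ := hw
      obtain ⟨r, hr, hr2⟩ := hM m hm
      have e0 := congrFun hmw 0
      have e1 := congrFun hmw 1
      simp at e0 e1
      rw [form_H0, e0, e1] at hr2
      have := congrArg QuaternionAlgebra.re hr2
      simp at this
      linarith
    have h4 := hA _ h3
    rw [A0_mul] at h4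
    have h5 : (![0, 1 + 1, 0] : Fin 3 → ℍ[ℝ]) ∈ M := by
      have h6 := M.sub_mem hv h4
      convert h6 using 1
      funext i
      fin_cases i <;> simp
    obtain ⟨r, hr, hr2⟩ := hM _ h5
    rw [form_H0] at hr2
    have := congrArg QuaternionAlgebra.re hr2
    simp at this
    linarith

end Pool.Agent.Results.MP_7dcdb2_al.PlusMatrix
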